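import Pool.Agent.H121.FL.Main
import Pool.Agent.H962.ME.Simple

/-! Project QL: from localization of a complete system and simplicity to all eigenfunctions. -/

set_option autoImplicit false

open scoped BigOperators InnerProductSpace Topology ENNReal
open Filter MeasureTheory

namespace Pool.Agent.H987.QL

open Pool.Agent.Y662.TR (LL dv lmk lmk_apply ll_ext inner_dv ll_summable)
open Pool.Agent.H987.Y (Lt)
open Pool.Agent.H121.FL

/-- Anderson localization with the rate `ν`: all square summable eigenfunctions decay exponentially with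
the rate `ν`, they span a dense subspace, and all eigenvalues are simple -/
def PL {d : ℕ} (ν : ℝ) (K : (Lt d → ℂ) → Lt d → ℂ) : Prop :=
  (∀ (ψ : Lt d → ℂ) (E : ℝ), (Summable fun x => ‖ψ x‖ ^ 2) → (∀ x, K ψ x = E * ψ x) →
    ∃ C : ℝ, ∀ x, ‖ψ x‖ ≤ C * Real.exp (-(ν * ∑ i, |(x i : ℝ)|))) ∧
  (∀ φ : Lt d → ℂ, (Summable fun x => ‖φ x‖ ^ 2) →
    (∀ (ψ : Lt d → ℂ) (E : ℝ), (Summable fun x => ‖ψ x‖ ^ 2) → (∀ x, K ψ x = E * ψ x) →
      ∑' x, (starRingEnd ℂ) (ψ x) * φ x = 0) → φ = 0) ∧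
  ∀ (E : ℝ) (ψ ψ' : Lt d → ℂ), (Summable fun x => ‖ψ x‖ ^ 2) → (Summable fun x => ‖ψ' x‖ ^ 2) →
    (∀ x, K ψ x = E * ψ x) → (∀ x, K ψ' x = E * ψ' x) → (∃ x, ψ x ≠ 0) →
    ∃ a : ℂ, ∀ x, ψ' x = a * ψ x

theorem pl_of {d : ℕ} (ν ν' : ℝ) (hν : ν' ≤ ν) (T : LL (Lt d) →L[ℂ] LL (Lt d))
    (hT : IsSelfAdjoint T) (hloc : Loc ν T)
    (hsim : ∀ (t : ℝ) (u v : LL (Lt d)), T u = (t : ℂ) • u → T v = (t : ℂ) • v → u ≠ 0 →
      ∃ a : ℂ, v = a • u)
    (K : (Lt d → ℂ) → Lt d → ℂ) (hK : ∀ (u : LL (Lt d)) (x : Lt d), K (fun y => u y) x = T u x) :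
    PL ν' K := by
  have hsym : ∀ u v : LL (Lt d), ⟪T u, v⟫_ℂ = ⟪u, T v⟫_ℂ := fun u v =>
    (ContinuousLinearMap.isSelfAdjoint_iff_isSymmetric.mp hT) u v
  -- eigenfunctions as eigenvectors
  have heig : ∀ (ψ : Lt d → ℂ) (E : ℝ) (h : Summable fun x => ‖ψ x‖ ^ 2),
      (∀ x, K ψ x = E * ψ x) → T (lmk ψ h) = (E : ℂ) • lmk ψ h := by
    intro ψ E h hE
    apply ll_ext
    intro x
    rw [← hK]
    have h1 : ((E : ℂ) • lmk ψ h : LL (Lt d)) x = (E : ℂ) * ψ x := rfl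
    rw [h1]
    exact hE x
  -- orthogonality
  have horth : ∀ (u v : LL (Lt d)) (s t : ℝ), T u = (s : ℂ) • u → T v = (t : ℂ) • v → s ≠ t →
      ⟪u, v⟫_ℂ = 0 := by
    intro u v s t hu hv hst
    have h1 := hsym u v
    rw [hu, hv, inner_smul_left, inner_smul_right, Complex.conj_ofReal] at h1
    have h2 : ((s : ℂ) - t) * ⟪u, v⟫_ℂ = 0 := by rw [sub_mul, h1, sub_self]
    rcases mul_eq_zero.1 h2 with h3 | h3
    · exact absurd (by exact_mod_cast sub_eq_zero.1 h3) hst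
    · exact h3
  refine ⟨fun ψ E hψ hE => ?_, fun φ hφ hall => ?_, fun E ψ ψ' hψ hψ' hE hE' hne => ?_⟩
  · by_cases hz : ∀ x, ψ x = 0
    · exact ⟨0, fun x => by rw [hz x]; simp⟩
    push Not at hz
    obtain ⟨y, hy⟩ := hz
    obtain ⟨u, hu⟩ : ∃ u, u = lmk ψ hψ := ⟨_, rfl⟩
    have hTu : T u = (E : ℂ) • u := by rw [hu]; exact heig ψ E hψ hE
    have huy : u y = ψ y := by rw [hu]; rfl
    have hpos : 0 < ‖ψ y‖ := norm_pos_iff.2 hy
    have hu0 : 0 ≤ ‖u‖ := norm_nonneg _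
    obtain ⟨F, w, hF, hδ⟩ := hloc y ((‖ψ y‖ / (2 * (‖u‖ + 1))) ^ 2) (by positivity)
    have hδ' : ‖dv y - ∑ t ∈ F, w t‖ ≤ ‖ψ y‖ / (2 * (‖u‖ + 1)) :=
      (pow_le_pow_iff_left₀ (norm_nonneg _) (by positivity) two_ne_zero).1 hδ
    have hinner : ‖⟪u, dv y⟫_ℂ‖ = ‖ψ y‖ := by
      rw [← inner_conj_symm, RCLike.norm_conj, inner_dv, huy]
    have hlt : ‖u‖ * ‖dv y - ∑ t ∈ F, w t‖ < ‖ψ y‖ := by
      calc ‖u‖ * ‖dv y - ∑ t ∈ F, w t‖ ≤ ‖u‖ * (‖ψ y‖ / (2 * (‖u‖ + 1))) :=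
            mul_le_mul_of_nonneg_left hδ' hu0
        _ < ‖ψ y‖ := by
            rw [mul_div_assoc', div_lt_iff₀ (by positivity)]
            nlinarith
    have hne : ⟪u, ∑ t ∈ F, w t⟫_ℂ ≠ 0 := by
      intro h0
      have h1 : ⟪u, dv y⟫_ℂ = ⟪u, dv y - ∑ t ∈ F, w t⟫_ℂ := by
        rw [inner_sub_right, h0, sub_zero]
      have h2 := norm_inner_le_norm (𝕜 := ℂ) u (dv y - ∑ t ∈ F, w t)
      rw [← h1, hinner] at h2
      linarith
    rw [inner_sum] at hne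
    obtain ⟨t, ht, hne2⟩ := Finset.exists_ne_zero_of_sum_ne_zero hne
    have htE : E = t := by
      by_contra h
      exact hne2 (horth u (w t) E t hTu (hF t ht).1 h)
    subst htE
    have hw0 : w E ≠ 0 := by
      intro h
      rw [h, inner_zero_right] at hne2
      exact hne2 rfl
    obtain ⟨a, ha⟩ := hsim E (w E) u (hF E ht).1 hTu hw0
    obtain ⟨C, hC⟩ := (hF E ht).2
    have hC0 : 0 ≤ C := by
      have h1 := (norm_nonneg _).trans (hC 0)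
      by_contra h2
      have h3 := mul_neg_of_neg_of_pos (not_le.1 h2) (Real.exp_pos (-ν * nm (0 : Lt d)))
      linarith
    refine ⟨‖a‖ * C, fun x => ?_⟩
    have h1 : ψ x = a * w E x := by
      have h2 : u x = ψ x := by rw [hu]; rfl
      rw [← h2, ha]
      rfl
    rw [h1, norm_mul, mul_assoc]
    apply mul_le_mul_of_nonneg_left _ (norm_nonneg _)
    refine (hC x).trans ?_
    apply mul_le_mul_of_nonneg_left _ hC0
    apply Real.exp_le_exp.2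
    rw [nm_cast]
    have h4 : (0 : ℝ) ≤ ∑ i, |(x i : ℝ)| := Finset.sum_nonneg fun i _ => abs_nonneg _
    nlinarith
  · obtain ⟨v, hv⟩ : ∃ v, v = lmk φ hφ := ⟨_, rfl⟩
    have hv0 : 0 ≤ ‖v‖ := norm_nonneg _
    funext y
    show φ y = 0
    by_contra hy
    have hpos : 0 < ‖φ y‖ := norm_pos_iff.2 hy
    obtain ⟨F, w, hF, hδ⟩ := hloc y ((‖φ y‖ / (2 * (‖v‖ + 1))) ^ 2) (by positivity)
    have hδ' : ‖dv y - ∑ t ∈ F, w t‖ ≤ ‖φ y‖ / (2 * (‖v‖ + 1)) :=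
      (pow_le_pow_iff_left₀ (norm_nonneg _) (by positivity) two_ne_zero).1 hδ
    have h0 : ⟪∑ t ∈ F, w t, v⟫_ℂ = 0 := by
      rw [sum_inner]
      refine Finset.sum_eq_zero fun t ht => ?_
      have h1 := hall (fun x => w t x) t (ll_summable (w t)) fun x => by
        rw [hK, (hF t ht).1]
        rfl
      rw [← h1, lp.inner_eq_tsum]
      refine tsum_congr fun x => ?_
      rw [RCLike.inner_apply, mul_comm, hv]
      rfl
    have h1 : φ y = ⟪dv y - ∑ t ∈ F, w t, v⟫_ℂ := by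
      rw [inner_sub_left, h0, sub_zero, inner_dv, hv]
      rfl
    have h2 := norm_inner_le_norm (𝕜 := ℂ) (dv y - ∑ t ∈ F, w t) v
    rw [← h1] at h2
    have h3 : ‖dv y - ∑ t ∈ F, w t‖ * ‖v‖ ≤ ‖φ y‖ / (2 * (‖v‖ + 1)) * ‖v‖ :=
      mul_le_mul_of_nonneg_right hδ' hv0
    have h4 : ‖φ y‖ / (2 * (‖v‖ + 1)) * ‖v‖ < ‖φ y‖ := by
      rw [div_mul_eq_mul_div, div_lt_iff₀ (by positivity)]
      nlinarith
    linarith
  · obtain ⟨a, ha⟩ := hsim E (lmk ψ hψ) (lmk ψ' hψ') (heig ψ E hψ hE) (heig ψ' E hψ' hE') (by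
      intro h
      obtain ⟨x, hx⟩ := hne
      apply hx
      have h1 : lmk ψ hψ x = (0 : LL (Lt d)) x := by rw [h]
      exact h1)
    refine ⟨a, fun x => ?_⟩
    have h1 : lmk ψ' hψ' x = (a • lmk ψ hψ : LL (Lt d)) x := by rw [ha]
    exact h1

end Pool.Agent.H987.QL
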